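import Pool.Agent.Lib_helper59.Lang.Defs

open Complex Metric Function MeromorphicOn Real

namespace LangFC

/-- norm of a circle average -/
lemma norm_circleAverage_le_A {E : Type*} [NormedAddCommGroup E] [NormedSpace ℝ E]
    {F : ℂ → E} {c : ℂ} {R : ℝ} :
    ‖Real.circleAverage F c R‖ ≤ Real.circleAverage (fun z => ‖F z‖) c R := by
  rw [Real.circleAverage_def, Real.circleAverage_def, norm_smul, smul_eq_mul]
  have h1 : ‖(2 * π)⁻¹‖ = (2 * π)⁻¹ := by
    rw [Real.norm_eq_abs, abs_of_nonneg (by positivity)]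
  rw [h1]
  gcongr
  exact intervalIntegral.norm_integral_le_integral_norm (by positivity)

/-- Herglotz: the logarithmic derivative is a circle average. -/
lemma logDeriv_eq_circleAverage {g : ℂ → ℂ} {R : ℝ} (hR : 0 < R)
    (hg : AnalyticOnNhd ℂ g (closedBall 0 R)) (h0 : ∀ z ∈ closedBall (0 : ℂ) R, g z ≠ 0)
    {z : ℂ} (hz : ‖z‖ < R) :
    deriv g z / g z =
      Real.circleAverage (fun ζ => (2 * ζ / (ζ - z) ^ 2) • ((Real.log ‖g ζ‖ : ℝ) : ℂ)) 0 R := by
  have hint : CircleIntegrable (fun ζ => Real.log ‖g ζ‖) 0 R := by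
    apply ContinuousOn.circleIntegrable hR.le
    intro x hx
    have hx' : x ∈ closedBall (0 : ℂ) R := sphere_subset_closedBall hx
    exact (((hg x hx').continuousAt.norm).log (norm_ne_zero_iff.2 (h0 x hx'))).continuousWithinAt
  have hintC : CircleIntegrable (fun ζ => ((Real.log ‖g ζ‖ : ℝ) : ℂ)) 0 R := by
    simp only [CircleIntegrable, intervalIntegrable_iff] at hint ⊢
    exact Complex.ofRealCLM.integrable_comp hint
  set G : ℂ → ℂ := fun w => Real.circleAverage
    (fun ζ => herglotzRieszKernel 0 w ζ • ((Real.log ‖g ζ‖ : ℝ) : ℂ)) 0 R with hG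
  have hGd : ∀ w ∈ ball (0 : ℂ) R, HasDerivAt G
      (Real.circleAverage (fun ζ => (2 * ζ / (ζ - w) ^ 2) • ((Real.log ‖g ζ‖ : ℝ) : ℂ)) 0 R) w :=
    fun w hw => hasDerivAt_circleAverage_herglotzRieszKernel_smul hintC hw
  have hGre : ∀ w ∈ ball (0 : ℂ) R, (G w).re = Real.log ‖g w‖ := by
    intro w hw
    rw [hG]
    simp only
    rw [re_circleAverage_herglotzRieszKernel_smul hint hw]
    exact InnerProductSpace.HarmonicOnNhd.circleAverage_re_herglotzRieszKernel_smul
      (f := fun ζ => Real.log ‖g ζ‖)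
      (fun x hx => (hg x hx).harmonicAt_log_norm (h0 x hx)) hw
  have hgd : ∀ w ∈ ball (0 : ℂ) R, HasDerivAt g (deriv g w) w := fun w hw =>
    (hg w (ball_subset_closedBall hw)).differentiableAt.hasDerivAt
  have hg0 : ∀ w ∈ ball (0 : ℂ) R, g w ≠ 0 := fun w hw => h0 w (ball_subset_closedBall hw)
  set F : ℂ → ℂ := fun w => Complex.exp (G w) / g w with hF
  have hFd : ∀ w ∈ ball (0 : ℂ) R, HasDerivAt F
      ((Complex.exp (G w) * (Real.circleAverage (fun ζ => (2 * ζ / (ζ - w) ^ 2) •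
        ((Real.log ‖g ζ‖ : ℝ) : ℂ)) 0 R) * g w - Complex.exp (G w) * deriv g w) / (g w) ^ 2) w :=
    fun w hw => (hGd w hw).cexp.div (hgd w hw) (hg0 w hw)
  have hFn : ∀ w ∈ ball (0 : ℂ) R, ‖F w‖ = 1 := by
    intro w hw
    rw [hF]
    simp only
    rw [norm_div, Complex.norm_exp, hGre w hw, Real.exp_log (norm_pos_iff.2 (hg0 w hw)),
      div_self (norm_ne_zero_iff.2 (hg0 w hw))]
  have hzb : z ∈ ball (0 : ℂ) R := by simpa using hz
  have hFdiff : DifferentiableOn ℂ F (ball (0 : ℂ) R) := fun w hw =>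
    (hFd w hw).differentiableAt.differentiableWithinAt
  have hconst : Set.EqOn F (Function.const ℂ (F z)) (ball (0 : ℂ) R) := by
    refine Complex.eqOn_of_isPreconnected_of_isMaxOn_norm (convex_ball _ _).isPreconnected
      isOpen_ball hFdiff hzb ?_
    intro w hw
    simp only [Function.comp_apply, Set.mem_ofPred_eq]
    rw [hFn w hw, hFn z hzb]
  have hev : F =ᶠ[nhds z] Function.const ℂ (F z) :=
    Filter.eventually_of_mem (isOpen_ball.mem_nhds hzb) hconst
  have hd0 : HasDerivAt F 0 z := (hasDerivAt_const z (F z)).congr_of_eventuallyEq hev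
  have huniq := (hFd z hzb).unique hd0
  have hgz := hg0 z hzb
  rw [div_eq_zero_iff] at huniq
  rcases huniq with h | h
  · have h2 : Complex.exp (G z) * ((Real.circleAverage (fun ζ => (2 * ζ / (ζ - z) ^ 2) •
        ((Real.log ‖g ζ‖ : ℝ) : ℂ)) 0 R) * g z - deriv g z) = 0 := by
      linear_combination h
    rcases mul_eq_zero.1 h2 with h3 | h3
    · exact absurd h3 (Complex.exp_ne_zero _)
    · rw [div_eq_iff hgz]
      linear_combination -h3
  · exact absurd h (pow_ne_zero 2 hgz)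

theorem logDeriv_bound_analytic_two {g : ℂ → ℂ} {R : ℝ} (hR : 0 < R)
    (hg : AnalyticOnNhd ℂ g (closedBall 0 R)) (h0 : ∀ z ∈ closedBall (0 : ℂ) R, g z ≠ 0)
    {z : ℂ} (hz : ‖z‖ < R) :
    ‖deriv g z / g z‖ ≤ 2 * R / (R - ‖z‖) ^ 2 *
      Real.circleAverage (fun w => |Real.log ‖g w‖|) 0 R := by
  rw [logDeriv_eq_circleAverage hR hg h0 hz]
  refine norm_circleAverage_le_A.trans ?_
  have hpos : 0 < R - ‖z‖ := by linarith
  have hcont : ContinuousOn (fun ζ => Real.log ‖g ζ‖) (sphere 0 |R|) := by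
    rw [abs_of_pos hR]
    intro x hx
    have hx' : x ∈ closedBall (0 : ℂ) R := sphere_subset_closedBall hx
    exact (((hg x hx').continuousAt.norm).log (norm_ne_zero_iff.2 (h0 x hx'))).continuousWithinAt
  have hne : ∀ ζ ∈ sphere (0 : ℂ) |R|, ζ - z ≠ 0 := by
    intro ζ hζ h
    rw [abs_of_pos hR] at hζ
    have : ζ = z := sub_eq_zero.1 h
    rw [mem_sphere_zero_iff_norm] at hζ
    rw [this] at hζ
    linarith
  rw [← smul_eq_mul, ← Real.circleAverage_fun_smul]
  apply Real.circleAverage_mono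
  · apply ContinuousOn.circleIntegrable'
    apply ContinuousOn.norm
    apply ContinuousOn.fun_smul
    · apply ContinuousOn.div (by fun_prop) (by fun_prop)
      intro x hx
      exact pow_ne_zero 2 (hne x hx)
    · exact Complex.continuous_ofReal.comp_continuousOn hcont
  · apply ContinuousOn.circleIntegrable'
    apply ContinuousOn.fun_const_smul
    exact hcont.abs
  · intro ζ hζ
    have hζ' := hζ
    rw [abs_of_pos hR, mem_sphere_zero_iff_norm] at hζ'
    rw [norm_smul, norm_div, norm_pow, norm_mul, hζ', Complex.norm_real, Real.norm_eq_abs,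
      smul_eq_mul]
    have h2 : ‖(2 : ℂ)‖ = 2 := by norm_num
    rw [h2]
    have h3 : R - ‖z‖ ≤ ‖ζ - z‖ := by
      have := norm_sub_norm_le ζ z
      rw [hζ'] at this
      exact this
    gcongr

theorem logDeriv_bound_analytic_proof {g : ℂ → ℂ} {R : ℝ} (hR : 0 < R)
    (hg : AnalyticOnNhd ℂ g (closedBall 0 R)) (h0 : ∀ z ∈ closedBall (0 : ℂ) R, g z ≠ 0)
    {z : ℂ} (hz : ‖z‖ < R) :
    ‖deriv g z / g z‖ ≤ 64 * R / (R - ‖z‖) ^ 2 *
      Real.circleAverage (fun w => |Real.log ‖g w‖|) 0 R := by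
  refine (logDeriv_bound_analytic_two hR hg h0 hz).trans ?_
  have hpos : 0 < R - ‖z‖ := by linarith
  have hA : 0 ≤ Real.circleAverage (fun w => |Real.log ‖g w‖|) 0 R :=
    Real.circleAverage_nonneg_of_nonneg (fun x _ => abs_nonneg _)
  gcongr
  norm_num

/-- the logarithmic derivative of a canonical factor -/
lemma canonicalFactor_logDeriv {R : ℝ} (hR : 0 < R) {w z : ℂ} (hw : ‖w‖ < R) (hz : ‖z‖ < R)
    (hzw : z ≠ w) :
    HasDerivAt (canonicalFactor R w) (canonicalFactor R w z *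
      (-(starRingEnd ℂ) w / ((R : ℂ) ^ 2 - (starRingEnd ℂ) w * z) - 1 / (z - w))) z := by
  have hR' : (R : ℂ) ≠ 0 := by exact_mod_cast hR.ne'
  have hzw' : z - w ≠ 0 := sub_ne_zero.2 hzw
  have hnum : (R : ℂ) ^ 2 - (starRingEnd ℂ) w * z ≠ 0 := by
    intro h
    have h1 : (R : ℂ) ^ 2 = (starRingEnd ℂ) w * z := sub_eq_zero.1 h
    have h2 : ‖(R : ℂ) ^ 2‖ = ‖(starRingEnd ℂ) w * z‖ := by rw [h1]
    rw [norm_pow, norm_mul, Complex.norm_real, RCLike.norm_conj, Real.norm_eq_abs,
      abs_of_pos hR] at h2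
    nlinarith [norm_nonneg w, norm_nonneg z]
  have h1 : HasDerivAt (fun z : ℂ => (R : ℂ) ^ 2 - (starRingEnd ℂ) w * z)
      (-(starRingEnd ℂ) w) z := by
    have := ((hasDerivAt_id z).const_mul ((starRingEnd ℂ) w)).const_sub ((R : ℂ) ^ 2)
    simpa using this
  have h2 : HasDerivAt (fun z : ℂ => (R : ℂ) * (z - w)) (R : ℂ) z := by
    have := ((hasDerivAt_id z).sub_const w).const_mul (R : ℂ)
    simpa using this
  have h3 := h1.div h2 (mul_ne_zero hR' hzw')
  rw [canonicalFactor_def]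
  refine h3.congr_deriv ?_
  simp only
  field_simp

lemma norm_conj_div_le {R : ℝ} (hR : 0 < R) {w z : ℂ} (hw : ‖w‖ < R) (hz : ‖z‖ < R) :
    ‖-(starRingEnd ℂ) w / ((R : ℂ) ^ 2 - (starRingEnd ℂ) w * z) - 1 / (z - w)‖ ≤
      1 / ‖z - w‖ + 1 / (R - ‖z‖) := by
  have hpos : 0 < R - ‖z‖ := by linarith
  have hlow : R ^ 2 - ‖w‖ * ‖z‖ ≤ ‖(R : ℂ) ^ 2 - (starRingEnd ℂ) w * z‖ := by
    have := norm_sub_norm_le ((R : ℂ) ^ 2) ((starRingEnd ℂ) w * z)
    rw [norm_pow, norm_mul, Complex.norm_real, RCLike.norm_conj, Real.norm_eq_abs,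
      abs_of_pos hR] at this
    exact this
  have hlow0 : 0 < R ^ 2 - ‖w‖ * ‖z‖ := by nlinarith [norm_nonneg w, norm_nonneg z]
  refine (norm_sub_le _ _).trans ?_
  rw [add_comm]
  have h1 : ‖(1 : ℂ) / (z - w)‖ = 1 / ‖z - w‖ := by rw [norm_div, norm_one]
  rw [h1]
  gcongr
  rw [norm_div, norm_neg, RCLike.norm_conj, div_le_div_iff₀ (hlow0.trans_le hlow) hpos]
  nlinarith [norm_nonneg w, norm_nonneg z]

/-- derivative of a product of powers of canonical factors -/
lemma prod_canonicalFactor_hasDerivAt {R : ℝ} (hR : 0 < R) (n : ℂ → ℤ) {z : ℂ} (hz : ‖z‖ < R)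
    (s : Finset ℂ) (hs' : ∀ w ∈ s, ‖w‖ < R) (hzs : z ∉ s) :
    HasDerivAt (fun w => ∏ i ∈ s, (canonicalFactor R i w) ^ (n i))
      ((∏ i ∈ s, (canonicalFactor R i z) ^ (n i)) * ∑ i ∈ s, (n i : ℂ) *
        (-(starRingEnd ℂ) i / ((R : ℂ) ^ 2 - (starRingEnd ℂ) i * z) - 1 / (z - i))) z := by
  classical
  induction s using Finset.induction_on with
  | empty => simpa using hasDerivAt_const z (1 : ℂ)
  | insert a t hat ih =>
    have hza : z ≠ a := fun h => hzs (h ▸ Finset.mem_insert_self a t)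
    have haR : ‖a‖ < R := hs' a (Finset.mem_insert_self a t)
    have ih' := ih (fun w hw => hs' w (Finset.mem_insert_of_mem hw))
      (fun h => hzs (Finset.mem_insert_of_mem h))
    have hne : canonicalFactor R a z ≠ 0 :=
      canonicalFactor_ne_zero (by simpa using haR) (by simpa using hz.le) hza
    have h1 := (hasDerivAt_zpow (n a) (canonicalFactor R a z) (Or.inl hne)).comp z
      (canonicalFactor_logDeriv hR haR hz hza)
    have h2 := h1.mul ih'
    have hfun : (fun w => ∏ i ∈ insert a t, (canonicalFactor R i w) ^ (n i)) =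
        ((fun x => x ^ (n a)) ∘ canonicalFactor R a) *
          (fun w => ∏ i ∈ t, (canonicalFactor R i w) ^ (n i)) := by
      funext w
      rw [Finset.prod_insert hat]
      rfl
    rw [hfun]
    refine h2.congr_deriv ?_
    rw [Finset.prod_insert hat, Finset.sum_insert hat]
    simp only [Function.comp_apply]
    have h3 : canonicalFactor R a z ^ (n a - 1) * canonicalFactor R a z =
        canonicalFactor R a z ^ (n a) := by
      rw [← zpow_add_one₀ hne, sub_add_cancel]
    linear_combination ((n a : ℂ) * (-(starRingEnd ℂ) a / ((R : ℂ) ^ 2 - (starRingEnd ℂ) a * z)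
      - 1 / (z - a)) * (∏ i ∈ t, (canonicalFactor R i z) ^ (n i))) * h3

theorem logDeriv_bound_proof {f : ℂ → ℂ} (hf : Nice f) {R : ℝ} (hR : 0 < R)
    (hS : ∀ w, ‖w‖ = R → dv f w = 0) (s : Finset ℂ)
    (hs : ∀ w, ‖w‖ < R → dv f w ≠ 0 → w ∈ s) (hs' : ∀ w ∈ s, ‖w‖ < R)
    {z : ℂ} (hz : ‖z‖ < R) (hz0 : dv f z = 0) :
    ‖deriv f z / f z‖ ≤ 64 * R / (R - ‖z‖) ^ 2 *
        Real.circleAverage (fun w => |Real.log ‖f w‖|) 0 R +
      ∑ w ∈ s, (|dv f w| : ℝ) * (1 / ‖z - w‖ + 1 / (R - ‖z‖)) := by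
  have hmer : MeromorphicOn f (closedBall 0 R) := fun x _ => (hf.nf x).meromorphicAt
  obtain ⟨h, D⟩ := hmer.exists_ecanonicalDecomp (fun u => hf.ord u)
  have hdvord : ∀ w, dv f w = (meromorphicOrderAt f w).untop₀ := by
    intro w
    exact MeromorphicOn.divisor_apply (fun x _ => (hf.nf x).meromorphicAt) (Set.mem_univ w)
  have hordz : ∀ w, dv f w = 0 → meromorphicOrderAt f w = 0 := by
    intro w hw
    rw [hdvord w] at hw
    rcases WithTop.untop₀_eq_zero.1 hw with h1 | h1
    · exact h1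
    · exact absurd h1 (hf.ord w)
  have hball : ∀ w, ‖w‖ < R → divisor f (ball 0 R) w = dv f w := by
    intro w hw
    rw [hdvord w]
    exact MeromorphicOn.divisor_apply (fun x _ => (hf.nf x).meromorphicAt) (by simpa using hw)
  have hball' : ∀ w, ¬ ‖w‖ < R → divisor f (ball 0 R) w = 0 := by
    intro w hw
    apply Function.locallyFinsuppWithin.apply_eq_zero_of_notMem
    simpa using hw
  have hsph : ∀ w, divisor f (sphere 0 R) w = 0 := by
    intro w
    by_cases hw : w ∈ sphere (0 : ℂ) R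
    · rw [MeromorphicOn.divisor_apply (fun x _ => (hf.nf x).meromorphicAt) hw, ← hdvord w]
      exact hS w (by simpa using hw)
    · exact Function.locallyFinsuppWithin.apply_eq_zero_of_notMem _ hw
  -- the formula for h
  have hform : ∀ w ∈ closedBall (0 : ℂ) R, dv f w = 0 →
      h w = (∏ i ∈ s, (canonicalFactor R i w) ^ (dv f i)) * f w := by
    intro w hw hw0
    rw [D.eq_smul_meromorphicTrailingCoeffAt_of_meromorphicOrderAt hw (hordz w hw0) hR]
    have hfw : AnalyticAt ℂ f w := by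
      rcases meromorphicNFAt_iff_analyticAt_or.1 (hf.nf w) with h1 | ⟨_, h1, _⟩
      · exact h1
      · rw [hordz w hw0] at h1
        exact absurd h1 (lt_irrefl _)
    have hfw0 : f w ≠ 0 := ((hf.nf w).meromorphicOrderAt_eq_zero_iff).1 (hordz w hw0)
    rw [hfw.meromorphicTrailingCoeffAt_of_ne_zero hfw0]
    have h1 : (∏ᶠ i, (w - i) ^ (-divisor f (sphere 0 R)) i) = 1 := by
      apply finprod_eq_one_of_forall_eq_one
      intro i
      rw [locallyFinsuppWithin.coe_neg, Pi.neg_apply, hsph i, neg_zero, zpow_zero]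
    rw [h1, mul_one, smul_eq_mul]
    congr 1
    rw [finprod_eq_prod_of_mulSupport_subset (s := s)]
    · apply Finset.prod_congr rfl
      intro i hi
      rw [hball i (hs' i hi)]
    · intro i hi
      rw [Function.mem_mulSupport] at hi
      by_contra his
      apply hi
      by_cases hiR : ‖i‖ < R
      · have : dv f i = 0 := by
          by_contra h2
          exact his (hs i hiR h2)
        rw [hball i hiR, this, zpow_zero]
      · rw [hball' i hiR, zpow_zero]
  have hh : ‖deriv h z / h z‖ ≤ 64 * R / (R - ‖z‖) ^ 2 *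
      Real.circleAverage (fun w => |Real.log ‖h w‖|) 0 R :=
    logDeriv_bound_analytic_proof hR D.analyticOnNhd D.ne_zero hz
  have havg : Real.circleAverage (fun w => |Real.log ‖h w‖|) 0 R =
      Real.circleAverage (fun w => |Real.log ‖f w‖|) 0 R := by
    apply Real.circleAverage_congr_sphere
    intro ζ hζ
    rw [abs_of_pos hR] at hζ
    simp only
    rw [hform ζ (sphere_subset_closedBall hζ) (hS ζ (by simpa using hζ)), norm_mul, norm_prod]
    have h1 : ∏ i ∈ s, ‖canonicalFactor R i ζ ^ (dv f i)‖ = 1 := by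
      apply Finset.prod_eq_one
      intro i hi
      rw [norm_zpow, norm_canonicalFactor_eval_circle_eq_one (by simpa using hs' i hi) hζ,
        one_zpow]
    rw [h1, one_mul]
  rw [havg] at hh
  classical
  set t : Finset ℂ := s.filter (fun i => dv f i ≠ 0) with ht
  have hzt : z ∉ t := by
    intro h1
    exact (Finset.mem_filter.1 h1).2 hz0
  have htR : ∀ w ∈ t, ‖w‖ < R := fun w hw => hs' w (Finset.mem_filter.1 hw).1
  have hst : ∀ w, (∏ i ∈ s, (canonicalFactor R i w) ^ (dv f i)) =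
      ∏ i ∈ t, (canonicalFactor R i w) ^ (dv f i) := by
    intro w
    rw [ht, Finset.prod_filter]
    apply Finset.prod_congr rfl
    intro i _
    by_cases h1 : dv f i = 0
    · simp [h1]
    · rw [if_pos h1]
  have hev : h =ᶠ[nhds z] (fun w => ∏ i ∈ t, (canonicalFactor R i w) ^ (dv f i)) * f := by
    have hopen : IsOpen (ball (0 : ℂ) R ∩ ((t : Set ℂ)ᶜ)) :=
      isOpen_ball.inter t.finite_toSet.isClosed.isOpen_compl
    refine Filter.eventually_of_mem (hopen.mem_nhds ⟨by simpa using hz, by simpa using hzt⟩) ?_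
    rintro w ⟨hw1, hw2⟩
    have hwR : ‖w‖ < R := by simpa using hw1
    have hw0 : dv f w = 0 := by
      by_contra h1
      exact hw2 (by
        rw [ht]
        simpa using ⟨hs w hwR h1, h1⟩)
    rw [hform w (ball_subset_closedBall hw1) hw0, hst w]
    rfl
  have hfz : AnalyticAt ℂ f z := by
    rcases meromorphicNFAt_iff_analyticAt_or.1 (hf.nf z) with h1 | ⟨_, h1, _⟩
    · exact h1
    · rw [hordz z hz0] at h1
      exact absurd h1 (lt_irrefl _)
  have hfz0 : f z ≠ 0 := ((hf.nf z).meromorphicOrderAt_eq_zero_iff).1 (hordz z hz0)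
  have hd := (prod_canonicalFactor_hasDerivAt hR (fun i => dv f i) hz t htR hzt).mul
    hfz.differentiableAt.hasDerivAt
  have hd2 := hd.congr_of_eventuallyEq hev
  have hP0 : (∏ i ∈ t, (canonicalFactor R i z) ^ (dv f i)) ≠ 0 := by
    rw [Finset.prod_ne_zero_iff]
    intro i hi
    refine zpow_ne_zero _ ?_
    refine canonicalFactor_ne_zero (by simpa using htR i hi) (by simpa using hz.le) ?_
    rintro rfl
    exact hzt hi
  have hhz : h z = (∏ i ∈ t, (canonicalFactor R i z) ^ (dv f i)) * f z := by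
    rw [hform z (by simpa using hz.le) hz0, hst z]
  have hkey : deriv f z / f z = deriv h z / h z - ∑ i ∈ t, (dv f i : ℂ) *
        (-(starRingEnd ℂ) i / ((R : ℂ) ^ 2 - (starRingEnd ℂ) i * z) - 1 / (z - i)) := by
    rw [hd2.deriv, hhz]
    generalize (∑ i ∈ t, (dv f i : ℂ) *
        (-(starRingEnd ℂ) i / ((R : ℂ) ^ 2 - (starRingEnd ℂ) i * z) - 1 / (z - i))) = S
    generalize (∏ i ∈ t, (canonicalFactor R i z) ^ (dv f i)) = P at hP0
    field_simp
    ring
  rw [hkey]
  refine (norm_sub_le _ _).trans ?_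
  refine add_le_add hh ?_
  refine (norm_sum_le _ _).trans ?_
  have hsum : ∑ w ∈ t, (|dv f w| : ℝ) * (1 / ‖z - w‖ + 1 / (R - ‖z‖)) ≤
      ∑ w ∈ s, (|dv f w| : ℝ) * (1 / ‖z - w‖ + 1 / (R - ‖z‖)) := by
    apply Finset.sum_le_sum_of_subset_of_nonneg (Finset.filter_subset _ _)
    intro i _ _
    have : 0 ≤ R - ‖z‖ := by linarith
    positivity
  refine le_trans ?_ hsum
  apply Finset.sum_le_sum
  intro i hi
  rw [norm_mul, Complex.norm_intCast]
  exact mul_le_mul_of_nonneg_left (norm_conj_div_le hR (htR i hi) hz) (abs_nonneg _)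

end LangFC
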